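import Pool.Agent.H83.KM2.Stm

set_option autoImplicit false

namespace Pool.Agent.H70.KM2

open Finset Pool.Agent.H83.KM Pool.Agent.H83.KM2

theorem degX {n : ℕ} (e : Fin 10 → Fin n × Fin n) (he : Ed e) (X Y : Finset (Fin n))
    (f : Fin n × Fin n)
    (hX : X.card = 3) (hY : Y.card = 3) (hXY : Disjoint X Y) (hf1 : f.1 ∉ X ∪ Y) (hf2 : f.2 ∉ X ∪ Y)
    (hf : ∃ a, e a = f)
    (h : ∀ a, e a ≠ f → ((e a).1 ∈ X ∧ (e a).2 ∈ Y) ∨ ((e a).1 ∈ Y ∧ (e a).2 ∈ X))
    (v : Fin n) (hv : v ∈ X) :
    dg e v = 3 := by
  obtain ⟨hinj, hlt⟩ := he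
  obtain ⟨a0, ha0⟩ := hf
  set o : Fin 10 → Fin n × Fin n := fun a => if (e a).1 ∈ X then e a else (e a).swap with ho
  have hoX : ∀ a, e a ≠ f → o a ∈ X ×ˢ Y := by
    intro a ha
    rw [mem_product]
    rcases h a ha with h1 | h1
    · simp only [ho]
      rw [if_pos h1.1]
      exact h1
    · have h2 : (e a).1 ∉ X := fun h3 => disjoint_left.1 hXY h3 h1.1
      simp only [ho]
      rw [if_neg h2]
      exact ⟨h1.2, h1.1⟩
  have hoinj : Function.Injective o := by
    intro a b hab
    apply hinj
    simp only [ho] at hab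
    have ha := hlt a
    have hb := hlt b
    split_ifs at hab with h1 h2 h2
    · exact hab
    · exfalso
      rw [hab] at ha
      exact lt_asymm ha hb
    · exfalso
      rw [← hab] at hb
      exact lt_asymm ha hb
    · exact Prod.swap_injective hab
  have himg : (univ.erase a0).image o = X ×ˢ Y := by
    apply eq_of_subset_of_card_le
    · intro z hz
      obtain ⟨a, ha, rfl⟩ := mem_image.1 hz
      apply hoX
      intro h1
      exact (mem_erase.1 ha).1 (hinj (h1.trans ha0.symm))
    · rw [card_product, hX, hY, card_image_of_injective _ hoinj, card_erase_of_mem (mem_univ _)]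
      simp
  have h1 : (univ.filter (fun a => On v (e a))).image o = {v} ×ˢ Y := by
    ext z
    rw [mem_image, mem_product, mem_singleton]
    constructor
    · rintro ⟨a, ha, rfl⟩
      have ha' : On v (e a) := (mem_filter.1 ha).2
      have hne : e a ≠ f := by
        intro h2
        rw [h2] at ha'
        rcases ha' with h3 | h3
        · exact hf1 (h3 ▸ mem_union_left _ hv)
        · exact hf2 (h3 ▸ mem_union_left _ hv)
      rcases h a hne with h2 | h2
      · simp only [ho]
        rw [if_pos h2.1]
        rcases ha' with h3 | h3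
        · exact ⟨h3.symm, h2.2⟩
        · exact absurd h2.2 (fun h4 => disjoint_left.1 hXY hv (h3 ▸ h4))
      · have h5 : (e a).1 ∉ X := fun h3 => disjoint_left.1 hXY h3 h2.1
        simp only [ho]
        rw [if_neg h5]
        rcases ha' with h3 | h3
        · exact absurd h2.1 (fun h4 => disjoint_left.1 hXY hv (h3 ▸ h4))
        · exact ⟨h3.symm, h2.1⟩
    · rintro ⟨hz1, hz2⟩
      have hz : z ∈ (univ.erase a0).image o := by
        rw [himg, mem_product, hz1]
        exact ⟨hv, hz2⟩
      obtain ⟨a, ha, haz⟩ := mem_image.1 hz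
      refine ⟨a, mem_filter.2 ⟨mem_univ _, ?_⟩, haz⟩
      rw [← hz1, ← haz]
      simp only [ho]
      split_ifs
      · exact Or.inl rfl
      · exact Or.inr rfl
  have h2 := congrArg card h1
  rw [card_image_of_injective _ hoinj, card_product, card_singleton, hY] at h2
  unfold dg
  rw [h2]

theorem degK {n : ℕ} (e : Fin 10 → Fin n × Fin n) (he : Ed e) (hK : K33 e) (v : Fin n) :
    dg e v ≠ 2 := by
  obtain ⟨X, Y, f, hX, hY, hXY, hf1, hf2, hf, h⟩ := hK
  by_cases h1 : v ∈ X
  · rw [degX e he X Y f hX hY hXY hf1 hf2 hf h v h1]; omega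
  · by_cases h2 : v ∈ Y
    · rw [degX e he Y X f hY hX hXY.symm (by rwa [union_comm]) (by rwa [union_comm]) hf
        (fun a ha => (h a ha).symm) v h2]
      omega
    · have h3 : dg e v ≤ 1 := by
        unfold dg
        rw [card_le_one]
        intro a ha b hb
        have key : ∀ c, On v (e c) → e c = f := by
          intro c hc
          by_contra hne
          rcases h c hne with h4 | h4 <;> rcases hc with h5 | h5
          · exact h1 (h5 ▸ h4.1)
          · exact h2 (h5 ▸ h4.2)
          · exact h2 (h5 ▸ h4.1)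
          · exact h1 (h5 ▸ h4.2)
        exact he.1 ((key a (mem_filter.1 ha).2).trans (key b (mem_filter.1 hb).2).symm)
      omega

theorem ord_pair {n : ℕ} (z : Sym2 (Fin n)) (hz : z ∈ (⊤ : SimpleGraph (Fin n)).edgeSet) :
    ∃ q : Fin n × Fin n, q.1 < q.2 ∧ s(q.1, q.2) = z := by
  induction z using Sym2.ind with
  | _ a b =>
    have hab : a ≠ b := by
      rw [SimpleGraph.mem_edgeSet] at hz
      exact hz
    rcases lt_or_gt_of_ne hab with h | h
    · exact ⟨(a, b), h, rfl⟩
    · exact ⟨(b, a), h, Sym2.eq_swap⟩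

theorem t_M10 (hK : S_MK) : S_M10 := by
  intro n d hd hn M hM I hI
  obtain ⟨e, he, hm⟩ : ∃ e : Fin 10 → Fin n × Fin n, Ed e ∧ ∀ a, s((e a).1, (e a).2) ∉ I := by
    obtain ⟨e, he, h⟩ := hK n d 5 hd (by norm_num) M hM I hI univ
      (by rw [card_univ, Fintype.card_fin, hn])
    exact ⟨e, he, fun a => (h a).1⟩
  by_cases h33 : K33 e
  swap
  · exact ⟨e, he, h33, hm⟩
  obtain ⟨X, Y, f, hX, hY, hXY, hf1, hf2, ⟨af, haf⟩, h⟩ := h33
  by_cases hex : ∃ q : Fin n × Fin n, q.1 < q.2 ∧ s(q.1, q.2) ∉ I ∧ ∀ a, e a ≠ q
  · obtain ⟨q, hq1, hq2, hq3⟩ := hex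
    obtain ⟨a0, ha0⟩ : ∃ a0 : Fin 10, a0 ≠ af := exists_ne af
    have hne0 : e a0 ≠ f := fun h1 => ha0 (he.1 (h1.trans haf.symm))
    have he' : Ed (Function.update e a0 q) := by
      constructor
      · intro a b hab
        by_cases h1 : a = a0 <;> by_cases h2 : b = a0
        · rw [h1, h2]
        · subst h1
          rw [Function.update_self, Function.update_of_ne h2] at hab
          exact absurd hab.symm (hq3 b)
        · subst h2
          rw [Function.update_self, Function.update_of_ne h1] at hab
          exact absurd hab (hq3 a)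
        · rw [Function.update_of_ne h1, Function.update_of_ne h2] at hab
          exact he.1 hab
      · intro a
        by_cases h1 : a = a0
        · subst h1
          rw [Function.update_self]
          exact hq1
        · rw [Function.update_of_ne h1]
          exact he.2 a
    refine ⟨Function.update e a0 q, he', ?_, ?_⟩
    · intro hK'
      have hdeg : ∀ v, v ∈ X ∨ v ∈ Y → dg e v = 3 := by
        rintro v (hv | hv)
        · exact degX e he X Y f hX hY hXY hf1 hf2 ⟨af, haf⟩ h v hv
        · exact degX e he Y X f hY hX hXY.symm (by rwa [union_comm]) (by rwa [union_comm])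
            ⟨af, haf⟩ (fun a ha => (h a ha).symm) v hv
      have hon : ∀ v, On v (e a0) → On v q := by
        intro v hv
        by_contra hvq
        apply degK _ he' hK' v
        have h3 : dg e v = 3 := by
          apply hdeg
          rcases h a0 hne0 with h4 | h4 <;> rcases hv with h5 | h5
          · exact Or.inl (h5 ▸ h4.1)
          · exact Or.inr (h5 ▸ h4.2)
          · exact Or.inr (h5 ▸ h4.1)
          · exact Or.inl (h5 ▸ h4.2)
        unfold dg at h3 ⊢
        have h4 : univ.filter (fun a => On v (Function.update e a0 q a)) =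
            (univ.filter (fun a => On v (e a))).erase a0 := by
          ext a
          rw [mem_erase, mem_filter, mem_filter]
          by_cases h1 : a = a0
          · subst h1
            rw [Function.update_self]
            simp [hvq]
          · rw [Function.update_of_ne h1]
            simp [h1]
        have h5 : a0 ∈ univ.filter (fun a => On v (e a)) := mem_filter.2 ⟨mem_univ _, hv⟩
        rw [h4, card_erase_of_mem h5, h3]
      apply hq3 a0
      have h1 := hon _ (Or.inl rfl)
      have h2 := hon _ (Or.inr rfl)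
      have h3 := he.2 a0
      rcases h1 with h1 | h1 <;> rcases h2 with h2 | h2
      · rw [h1, h2] at h3
        exact absurd h3 (lt_irrefl _)
      · exact Prod.ext h1 h2
      · rw [h1, h2] at h3
        exact absurd h3 (not_lt.2 hq1.le)
      · rw [h1, h2] at h3
        exact absurd h3 (lt_irrefl _)
    · intro a
      by_cases h1 : a = a0
      · subst h1
        rw [Function.update_self]
        exact hq2
      · rw [Function.update_of_ne h1]
        exact hm a
  · exfalso
    obtain ⟨hME, hMC⟩ := hM
    have hcov : ∀ q : Fin n × Fin n, q.1 < q.2 → s(q.1, q.2) ∉ I → ∃ a, e a = q := by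
      intro q h1 h2
      by_contra h3
      exact hex ⟨q, h1, h2, fun a ha => h3 ⟨a, ha⟩⟩
    have hcard : ∀ Z : Finset (Fin n), Z.card = 3 → (univ \ Z).card = d + 2 := by
      intro Z hZ
      rw [card_sdiff_of_subset (subset_univ _), card_univ, Fintype.card_fin, hZ]
      omega
    have hC1 := hMC (univ \ X) (hcard X hX)
    have hC2 := hMC (univ \ Y) (hcard Y hY)
    have hne : KS (univ \ X) ≠ KS (univ \ Y) := by
      intro heq
      obtain ⟨x, hx, x', hx', hxx⟩ := one_lt_card.1 (show 1 < X.card by omega)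
      have h1 : s(x, x') ∈ KS (univ \ Y) := by
        refine ⟨?_, ?_⟩
        · rw [SimpleGraph.mem_edgeSet]
          exact hxx
        · intro v hv
          rw [Sym2.mem_iff] at hv
          rw [mem_sdiff]
          refine ⟨mem_univ _, ?_⟩
          rcases hv with rfl | rfl
          · exact disjoint_left.1 hXY hx
          · exact disjoint_left.1 hXY hx'
      rw [← heq] at h1
      exact (mem_sdiff.1 (h1.2 x (Sym2.mem_mk_left x x'))).2 hx
    obtain ⟨C, hCs, hC⟩ := hC1.elimination hC2 hne s(f.1, f.2)
    apply hC.not_indep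
    apply hI.subset
    intro z hz
    obtain ⟨hz1, hz2⟩ := hCs hz
    have hzf : z ≠ s(f.1, f.2) := hz2
    by_contra hzI
    have hzE : z ∈ (⊤ : SimpleGraph (Fin n)).edgeSet := by
      rcases hz1 with h1 | h1
      · exact h1.1
      · exact h1.1
    obtain ⟨q, hq, rfl⟩ := ord_pair z hzE
    obtain ⟨a, rfl⟩ := hcov q hq hzI
    have hne' : e a ≠ f := fun h1 => hzf (by rw [h1])
    have hm1 : (e a).1 ∈ s((e a).1, (e a).2) := Sym2.mem_mk_left _ _
    have hm2 : (e a).2 ∈ s((e a).1, (e a).2) := Sym2.mem_mk_right _ _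
    rcases h a hne' with h1 | h1 <;> rcases hz1 with h2 | h2
    · exact (mem_sdiff.1 (h2.2 _ hm1)).2 h1.1
    · exact (mem_sdiff.1 (h2.2 _ hm2)).2 h1.2
    · exact (mem_sdiff.1 (h2.2 _ hm2)).2 h1.2
    · exact (mem_sdiff.1 (h2.2 _ hm1)).2 h1.1

end Pool.Agent.H70.KM2
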